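import Mathlib
import Pool.Agent.Helper97.KB.Stm
import Pool.Graph.R_pool_sql_team_seeded_3997aac3.Q17.DC.All2

/-!
# Existence of major subsections (part Ext of the bound for the number of characters of a block)

For an element `z` of `Z(D)`, `D` a defect group of the block `B`, there is a block of the centraliser
of `z` which induces `B` and has defect groups of the order of `D`. The Brauer homomorphism lemmas are
copied from `Q38.DC.EXI` and `Q261.DC.BRX` with the normaliser of a `p`-subgroup replaced by its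
centraliser.
-/

set_option autoImplicit false
set_option linter.unusedSectionVars false

open scoped BigOperators Classical
open Pool.Agent.Helper884 Pool.Agent.H254R3.IN Pool.Agent.Q176.DC Pool.Agent.Q111.DC
open Pool.Agent.Q261.DC

noncomputable section

namespace Pool.Agent.Helper7.KB

variable {G : Type} [Group G] [Fintype G] {p : ℕ} [hpr : Fact p.Prime] {O : ValuationSubring ℂ}

lemma mul_res {C : Subgroup G}
    (hrs : ∀ {u v : G → ℂ}, IsCl u → IsCl v → (∀ g, u g ∈ O) → (∀ g, v g ∈ O) →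
      ∀ c : C, red O (rs C (conv u v) c) = red O (conv (rs C u) (rs C v) c)) {θ : C → ℂ}
    (hθ : IsIrr θ) {u v : G → ℂ} (hu : IsCl u) (hv : IsCl v)
    (hu' : ∀ g, u g ∈ O) (hv' : ∀ g, v g ∈ O) :
    red O (Om (rs C (conv u v)) θ) = red O (Om (rs C u) θ) * red O (Om (rs C v) θ) := by
  rw [red_Om_congr hθ (rs_cl C (hu.conv hv)) ((rs_cl C hu).conv (rs_cl C hv))
    (rs_mem C (conv_mem hu' hv')) (conv_mem (rs_mem C hu') (rs_mem C hv')) (hrs hu hv hu' hv'),
    Om_conv hθ (rs_cl C hu) (rs_cl C hv),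
    red_mul (red_Om hθ (rs_cl C hu) (rs_mem C hu')).1 (red_Om hθ (rs_cl C hv) (rs_mem C hv')).1]

/-- the block of a character of `C` induces a block -/
theorem exi_main {C : Subgroup G} {θ : C → ℂ} (hθ : IsIrr θ)
    (hmul : ∀ {u v : G → ℂ}, IsCl u → IsCl v → (∀ g, u g ∈ O) → (∀ g, v g ∈ O) →
      red O (Om (rs C (conv u v)) θ) = red O (Om (rs C u) θ) * red O (Om (rs C v) θ)) :
    ∃ B : Set (G → ℂ), IsBlock O B ∧ ∀ χ ∈ B, ∀ w : G, omega χ w -
      ∑ᶠ y : {y : C // IsConj w (y : G)}, θ y / θ 1 ∈ O.nonunits := by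
  have hdl : rs C dl = dl := by
    funext c
    exact dl_coe C c
  obtain ⟨B, hB, hBne⟩ : ∃ B : Set (G → ℂ), IsBlock O B ∧
      red O (Om (rs C (blockCoeff B)) θ) ≠ 0 := by
    by_contra hcon
    push Not at hcon
    have h1 : Om (rs C dl) θ = ∑ β ∈ Pool.Agent.Q111.DC.Bls (A := G) O,
        Om (rs C (blockCoeff β)) θ := by
      rw [← Pool.Agent.Q111.DC.sum_blocks (A := G) O]
      exact Pool.Agent.Q111.DC.Om_sum _ (fun β => rs C (blockCoeff β)) θ
    rw [hdl, Om_dl hθ] at h1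
    have h2 : red O 1 = 0 := by
      rw [h1, red_sum _ _ fun β hβ => ?_]
      · refine Finset.sum_eq_zero fun β hβ => ?_
        obtain ⟨χ, hχ, rfl⟩ := Finset.mem_image.mp hβ
        exact hcon _ (Pool.Agent.Q111.DC.Bl_block (mem_Irr.mp hχ))
      · obtain ⟨χ, hχ, rfl⟩ := Finset.mem_image.mp hβ
        have hb := Pool.Agent.Q111.DC.Bl_block (O := O) (mem_Irr.mp hχ)
        exact (red_Om hθ (rs_cl C (blockCoeff_cl hb.irr)) (rs_mem C (blockCoeff_mem hb))).1
    rw [red_one] at h2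
    exact one_ne_zero h2
  have hcl := blockCoeff_cl hB.irr
  have hbO := blockCoeff_mem hB
  refine ⟨B, hB, fun χ hχ w => ?_⟩
  rw [hsum C θ w]
  have hk := ind_cl w
  have hkO := ind_mem O w
  obtain ⟨K, hK⟩ : ∃ K, K = Om (rs C (ind w)) θ := ⟨_, rfl⟩
  have hKO : K ∈ O := by rw [hK]; exact (red_Om hθ (rs_cl C hk) (rs_mem C hkO)).1
  have key : ∀ T : Finset (G → ℂ), (∀ ψ ∈ T, ψ ∈ B) → ∃ P : G → ℂ, IsCl P ∧ (∀ g, P g ∈ O) ∧
      (∀ χ', IsIrr χ' → Om P χ' = ∏ ψ ∈ T, (omega χ' w - omega ψ w)) ∧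
      red O (Om (rs C P) θ) = ∏ ψ ∈ T, (red O K - red O (omega ψ w)) := by
    intro T
    induction T using Finset.induction_on with
    | empty =>
      refine fun _ => ⟨dl, dl_cl, dl_mem O, fun χ' hχ' => by rw [Om_dl hχ', Finset.prod_empty], ?_⟩
      rw [hdl, Om_dl hθ, red_one, Finset.prod_empty]
    | insert f s hf ih =>
      intro hT
      obtain ⟨P, h1, h2, h3, h4⟩ := ih fun φ hφ => hT φ (Finset.mem_insert_of_mem hφ)
      have hfi := hB.irr f (hT f (Finset.mem_insert_self f s))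
      have hfO := hfi.omega_mem O w
      have hQO : ∀ g, ind w g - omega f w * dl g ∈ O := fun g =>
        sub_mem' (hkO g) (O.mul_mem _ _ hfO (dl_mem O g))
      have hQ := cl_shift hk (omega f w)
      refine ⟨conv P (fun g => ind w g - omega f w * dl g), h1.conv hQ, conv_mem h2 hQO, ?_, ?_⟩
      · intro χ' hχ'
        rw [Om_conv hχ' h1 hQ, h3 χ' hχ', Om_shift hχ', Om_ind hχ', Finset.prod_insert hf]
        ring
      · rw [hmul h1 hQ h2 hQO]
        have h5 : Om (rs C (fun g => ind w g - omega f w * dl g)) θ = K - omega f w := by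
          have h6 : rs C (fun g => ind w g - omega f w * dl g) =
              fun c => rs C (ind w) c - omega f w * dl c := by
            funext c
            show ind w (c : G) - omega f w * dl (c : G) = ind w (c : G) - omega f w * dl c
            rw [dl_coe]
          rw [h6, Om_shift hθ, hK]
        rw [h5, h4, red_sub hKO hfO, Finset.prod_insert hf]
        ring
  obtain ⟨P, h1, h2, h3, h4⟩ := key ((IC.Irr G).filter (· ∈ B)) fun ψ hψ =>
    (Finset.mem_filter.1 hψ).2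
  have h5 : conv P (blockCoeff B) = fun _ => 0 := by
    refine eq_of_Om (h1.conv hcl) (fun _ _ => rfl) fun χ' hχ' => ?_
    rw [Om_conv hχ' h1 hcl, h3 χ' hχ', Om_blockCoeff hB.irr hχ']
    have h6 : Om (fun _ : G => (0 : ℂ)) χ' = 0 := by unfold Om; simp
    rw [h6]
    by_cases hB' : χ' ∈ B
    · have hz : ∏ ψ ∈ (IC.Irr G).filter (· ∈ B), (omega χ' w - omega ψ w) = 0 :=
        Finset.prod_eq_zero (Finset.mem_filter.2 ⟨mem_Irr.2 hχ', hB'⟩) (sub_self _)
      rw [hz, zero_mul]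
    · rw [if_neg hB', mul_zero]
  have h6 : red O (Om (rs C P) θ) * red O (Om (rs C (blockCoeff B)) θ) = 0 := by
    rw [← hmul h1 hcl h2 hbO, h5]
    have h7 : Om (rs C (fun _ : G => (0 : ℂ))) θ = 0 := by
      unfold Om rs
      simp
    rw [h7, red_zero]
  rcases mul_eq_zero.1 h6 with h7 | h7
  · rw [h4, Finset.prod_eq_zero_iff] at h7
    obtain ⟨ψ, hψ, h8⟩ := h7
    have hψB := (Finset.mem_filter.1 hψ).2
    rw [← hK]
    have hχO := (hB.irr χ hχ).omega_mem O w
    rw [← red_eq_iff hχO hKO, hB.red_eq hχ hψB, (sub_eq_zero.1 h8)]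
  · exact absurd h7 hBne

lemma val {C : Subgroup G} {B : Set (G → ℂ)} (hB : IsBlock O B) {θ : C → ℂ}
    (hθ : IsIrr θ) (hmul : ∀ {u v : G → ℂ}, IsCl u → IsCl v → (∀ g, u g ∈ O) → (∀ g, v g ∈ O) →
      red O (Om (rs C (conv u v)) θ) = red O (Om (rs C u) θ) * red O (Om (rs C v) θ)) :
    red O (Om (rs C (blockCoeff B)) θ) = if Idc O B C θ then 1 else 0 := by
  have hcl := blockCoeff_cl hB.irr
  have hbO := blockCoeff_mem hB
  by_cases hI : Idc O B C θ
  · obtain ⟨χ, hχ⟩ := hB.nonempty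
    rw [if_pos hI, Om_rs hθ (hB.irr χ hχ) (hI χ hχ) hcl hbO, Om_blockCoeff hB.irr (hB.irr χ hχ),
      if_pos hχ, red_one]
  · obtain ⟨B', hB', hw⟩ := exi_main (O := O) hθ hmul
    obtain ⟨χ', hχ'⟩ := hB'.nonempty
    have hi' := hB'.irr χ' hχ'
    have hnot : χ' ∉ B := by
      intro hmem
      apply hI
      intro χ hχ x
      have h1 := hw χ' hχ' x
      have h2 := (red_congr (hi'.omega_mem O x) h1)
      rw [← red_eq_iff ((hB.irr χ hχ).omega_mem O x) h2.1, hB.red_eq hχ hmem, h2.2]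
    rw [if_neg hI, Om_rs hθ hi' (hw χ' hχ') hcl hbO, Om_blockCoeff hB.irr hi', if_neg hnot,
      red_zero]

/-- the Brauer homomorphism of a block idempotent: some block of the centraliser which induces `B`
does not vanish at `x` -/
theorem main1 (hp : (p : ℂ) ∈ O.nonunits) (P : Subgroup G) (hP : IsPGroup p P) (C : Subgroup G)
    (hC : C = Subgroup.centralizer (P : Set G)) {B : Set (G → ℂ)} (hB : IsBlock O B) (x : C)
    (hx : blockCoeff B (x : G) ∉ O.nonunits) :
    ∃ β : Set (C → ℂ), IsBlock O β ∧ (∀ χ ∈ B, ∀ θ ∈ β, ∀ x : G,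
        omega χ x - ∑ᶠ y : {y : C // IsConj x (y : G)}, θ y / θ 1 ∈ O.nonunits) ∧
      blockCoeff β x ∉ O.nonunits := by
  have hcl := blockCoeff_cl hB.irr
  have hbO := blockCoeff_mem hB
  have hrs : ∀ {u v : G → ℂ}, IsCl u → IsCl v → (∀ g, u g ∈ O) → (∀ g, v g ∈ O) →
      ∀ c : C, red O (rs C (conv u v) c) = red O (conv (rs C u) (rs C v) c) := by
    subst hC
    exact fun hu hv hu' hv' => rs_conv hp P hP hu hv hu' hv'
  obtain ⟨S, hS⟩ : ∃ S : Finset (Set (C → ℂ)), ∀ β, β ∈ S ↔ IsBlock O β ∧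
      ∀ χ ∈ B, ∀ θ ∈ β, ∀ x : G,
        omega χ x - ∑ᶠ y : {y : C // IsConj x (y : G)}, θ y / θ 1 ∈ O.nonunits := by
    refine ⟨(Bls O).filter (fun β => ∀ χ ∈ B, ∀ θ ∈ β, ∀ x : G,
        omega χ x - ∑ᶠ y : {y : C // IsConj x (y : G)}, θ y / θ 1 ∈ O.nonunits), fun β => ?_⟩
    rw [Finset.mem_filter]
    have h1 : β ∈ Bls (A := C) O ↔ IsBlock O β := by
      unfold Bls
      rw [Finset.mem_image]
      constructor
      · rintro ⟨χ, hχ, rfl⟩
        exact Bl_block (mem_Irr.1 hχ)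
      · rintro ⟨χ, hχ, rfl⟩
        exact ⟨χ, mem_Irr.2 hχ, rfl⟩
    rw [h1]
  have hirr : ∀ β ∈ S, ∀ θ ∈ β, IsIrr θ := fun β hβ => ((hS β).1 hβ).1.irr
  have hv : IsCl (fun t : C => ∑ β ∈ S, blockCoeff β t) := by
    intro g y
    exact Finset.sum_congr rfl fun β hβ => blockCoeff_cl (hirr β hβ) g y
  have hvO : ∀ t : C, (fun t : C => ∑ β ∈ S, blockCoeff β t) t ∈ O := fun t =>
    sum_mem' _ _ fun β hβ => blockCoeff_mem ((hS β).1 hβ).1 t
  have hOmv : ∀ θ : C → ℂ, IsIrr θ → Om (fun t : C => ∑ β ∈ S, blockCoeff β t) θ =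
      if Idc O B C θ then 1 else 0 := by
    intro θ hθ
    rw [Om_sum S (fun β => blockCoeff β) θ]
    by_cases hI : Idc O B C θ
    · have hb : Bl O θ ∈ S := by
        rw [hS]
        refine ⟨Bl_block hθ, fun χ hχ θ' hθ' w => ?_⟩
        exact Idc_congr hB (Bl_block hθ) (mem_Bl_self hθ) hθ' hI χ hχ w
      rw [if_pos hI, Finset.sum_eq_single (Bl O θ)]
      · rw [Om_blockCoeff Bl_irr hθ, if_pos (mem_Bl_self hθ)]
      · intro β hβ hne
        rw [Om_blockCoeff (hirr β hβ) hθ, if_neg]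
        intro hmem
        apply hne
        obtain ⟨χ, -, rfl⟩ := ((hS β).1 hβ).1
        exact Bl_eq hmem
      · intro hn
        exact absurd hb hn
    · rw [if_neg hI]
      refine Finset.sum_eq_zero fun β hβ => ?_
      rw [Om_blockCoeff (hirr β hβ) hθ, if_neg]
      intro hmem
      exact hI fun χ hχ w => ((hS β).1 hβ).2 χ hχ θ hmem w
  have hvi : ∀ a : C, red O (conv (fun t : C => ∑ β ∈ S, blockCoeff β t)
      (fun t : C => ∑ β ∈ S, blockCoeff β t) a) =
      red O ((fun t : C => ∑ β ∈ S, blockCoeff β t) a) := by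
    have h1 : conv (fun t : C => ∑ β ∈ S, blockCoeff β t)
      (fun t : C => ∑ β ∈ S, blockCoeff β t) = fun t : C => ∑ β ∈ S, blockCoeff β t := by
      refine eq_of_Om (hv.conv hv) hv fun θ hθ => ?_
      rw [Om_conv hθ hv hv, hOmv θ hθ]
      split_ifs <;> simp
    intro a
    rw [h1]
  have hf := rs_cl C hcl
  have hfO := rs_mem C hbO
  have hui : ∀ a : C, red O (conv (rs C (blockCoeff B)) (rs C (blockCoeff B)) a) =
      red O (rs C (blockCoeff B) a) := fun a => by
    rw [← hrs hcl hcl hbO hbO, conv_idem hB]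
  have key := idem_uniq (O := O) hf hv hfO hvO hui hvi
    (by
      intro θ hθ
      rw [val hB hθ (fun hu hv hu' hv' => mul_res hrs hθ hu hv hu' hv'), hOmv θ hθ]
      split_ifs
      · exact red_one.symm
      · exact red_zero.symm) x
  have h1 : red O (blockCoeff B (x : G)) = ∑ β ∈ S, red O (blockCoeff β x) := by
    rw [← red_sum _ _ fun β hβ => blockCoeff_mem ((hS β).1 hβ).1 x]
    exact key
  have h2 : ∑ β ∈ S, red O (blockCoeff β x) ≠ 0 := by
    rw [← h1]
    exact (not_nu (hbO _)).1 hx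
  obtain ⟨β, hβ, hne⟩ := Finset.exists_ne_zero_of_sum_ne_zero h2
  exact ⟨β, ((hS β).1 hβ).1, ((hS β).1 hβ).2, (not_nu (blockCoeff_mem ((hS β).1 hβ).1 x)).2 hne⟩

lemma cent_zpowers (z : G) :
    Subgroup.centralizer ({z} : Set G) = Subgroup.centralizer (Subgroup.zpowers z : Set G) := by
  ext g
  rw [Subgroup.mem_centralizer_iff, Subgroup.mem_centralizer_iff]
  constructor
  · intro h y hy
    obtain ⟨n, rfl⟩ := Subgroup.mem_zpowers_iff.1 hy
    exact (Commute.zpow_left (h z rfl) n : Commute (z ^ n) g)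
  · rintro h y rfl
    exact h y (Subgroup.mem_zpowers y)

/-- a `p`-subgroup of the centraliser of `x` has at most the order of a Sylow subgroup -/
lemma card_le_sylow {x : G} {D : Subgroup G} (P : Sylow p (Subgroup.centralizer ({x} : Set G)))
    (hP : D = (P : Subgroup (Subgroup.centralizer ({x} : Set G))).map
        (Subgroup.centralizer ({x} : Set G)).subtype) (R : Subgroup G) (hR : IsPGroup p R)
    (hRx : ∀ r ∈ R, Commute r x) : Nat.card R ≤ Nat.card D := by
  have hcP : Nat.card D = Nat.card (P : Subgroup (Subgroup.centralizer ({x} : Set G))) := by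
    rw [hP]
    exact (Nat.card_congr ((P : Subgroup (Subgroup.centralizer ({x} : Set G))).equivMapOfInjective _
      (Subgroup.subtype_injective _)).toEquiv).symm
  have hle : R ≤ Subgroup.centralizer ({x} : Set G) := by
    intro r hr
    rw [Subgroup.mem_centralizer_iff]
    rintro y rfl
    exact (hRx r hr).symm
  rw [hcP]
  have h2 : Nat.card R ∣ Nat.card (P : Subgroup (Subgroup.centralizer ({x} : Set G))) := by
    rw [← Nat.card_congr (Subgroup.subgroupOfEquivOfLe hle).toEquiv]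
    have hp1 : IsPGroup p (R.subgroupOf (Subgroup.centralizer ({x} : Set G))) :=
      hR.of_equiv (Subgroup.subgroupOfEquivOfLe hle).symm
    obtain ⟨n, hn⟩ := IsPGroup.iff_card.1 hp1
    rw [hn]
    refine P.pow_dvd_card_of_pow_dvd_card ?_
    rw [← hn]
    exact Subgroup.card_subgroup_dvd_card _
  exact Nat.le_of_dvd Nat.card_pos h2

/-- **Ext**: existence of major subsections -/
theorem ext : Pool.Agent.Helper97.KB.S_Ext := by
  intro G _ _ p _ O hp B hB D hD z hz hzD
  obtain ⟨x, ⟨P, hP⟩, hom, hbc⟩ := id hD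
  obtain ⟨hDp, hxD, -⟩ := syl1 P hP
  have hzp : IsPGroup p (Subgroup.zpowers z) := hDp.to_le (by
    rw [Subgroup.zpowers_le]
    exact hz)
  have hxC : x ∈ Pool.Agent.N20.CC z := by
    rw [Subgroup.mem_centralizer_iff]
    rintro y rfl
    exact (Subgroup.mem_centralizer_iff.1 hxD y hz)
  obtain ⟨β, hβ, hind, hbβ⟩ := main1 hp (Subgroup.zpowers z) hzp (Pool.Agent.N20.CC z)
    (cent_zpowers z) hB ⟨x, hxC⟩ hbc
  obtain ⟨⟨E, hE⟩, hM⟩ := Pool.Agent.Q17.DC.s_mmx (Pool.Agent.N20.CC z) p O hp β hβ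
  obtain ⟨hM1, hM2⟩ := hM E hE
  refine ⟨β, E, hβ, hE, ?_, hind⟩
  have hDle : D ≤ Pool.Agent.N20.CC z := by
    intro d hd
    rw [Subgroup.mem_centralizer_iff]
    rintro y rfl
    exact (hzD d hd)
  apply le_antisymm
  · -- `|E| ≤ |D|`
    obtain ⟨χ, hχ⟩ := hB.nonempty
    obtain ⟨φ, hφ⟩ := hβ.nonempty
    have h1 := Pool.Agent.N20.induced_sum' (hB.irr χ hχ) (hβ.irr φ hφ) (hind χ hχ φ hφ x)
    have h2 : red O (omega χ x) ≠ 0 := (not_nu ((hB.irr χ hχ).omega_mem O x)).1 (hom χ hχ)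
    rw [h1] at h2
    obtain ⟨L, -, hL⟩ := Finset.exists_ne_zero_of_sum_ne_zero h2
    have hc : IsConj x ((rep L : Pool.Agent.N20.CC z) : G) := by
      by_contra hcon
      rw [if_neg hcon] at hL
      exact hL rfl
    rw [if_pos hc] at hL
    obtain ⟨g, hg⟩ := hM2 (rep L) φ hφ ((not_nu ((hβ.irr φ hφ).omega_mem O _)).2 hL)
    obtain ⟨c, hcx⟩ := isConj_iff.1 hc
    -- the subgroup `c⁻¹ g E g⁻¹ c`
    have hEp : IsPGroup p E := by
      obtain ⟨x', ⟨P', hP'⟩, -, -⟩ := hE
      exact (syl1 P' hP').1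
    set R : Subgroup G := (E.map (Pool.Agent.N20.CC z).subtype).map
      (MulAut.conj (c⁻¹ * (g : G))).toMonoidHom with hR
    have hRp : IsPGroup p R := (hEp.map _).map _
    have hcard : Nat.card E = Nat.card R := by
      rw [hR, Subgroup.map_map]
      refine Nat.card_congr (E.equivMapOfInjective _ ?_).toEquiv
      exact (MulAut.conj (c⁻¹ * (g : G))).injective.comp (Subgroup.subtype_injective _)
    rw [hcard]
    refine card_le_sylow P hP R hRp ?_
    rintro r ⟨s, ⟨e, he, rfl⟩, rfl⟩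
    have h3 := hg e he
    have h4 : Commute ((g : G) * (e : G) * (g : G)⁻¹) ((rep L : Pool.Agent.N20.CC z) : G) :=
      congrArg Subtype.val h3
    rw [← hcx] at h4
    have h5 : (MulAut.conj (c⁻¹ * (g : G))).toMonoidHom ((Pool.Agent.N20.CC z).subtype e) =
        c⁻¹ * ((g : G) * (e : G) * (g : G)⁻¹) * c := by
      simp [MulAut.conj_apply, mul_assoc]
    rw [h5]
    show _ * _ = _ * _
    have h6 : ((g : G) * (e : G) * (g : G)⁻¹) * (c * x * c⁻¹) =
      (c * x * c⁻¹) * ((g : G) * (e : G) * (g : G)⁻¹) := h4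
    calc c⁻¹ * ((g : G) * (e : G) * (g : G)⁻¹) * c * x
        = c⁻¹ * (((g : G) * (e : G) * (g : G)⁻¹) * (c * x * c⁻¹)) * c := by group
      _ = c⁻¹ * ((c * x * c⁻¹) * ((g : G) * (e : G) * (g : G)⁻¹)) * c := by rw [h6]
      _ = x * (c⁻¹ * ((g : G) * (e : G) * (g : G)⁻¹) * c) := by group
  · -- `|D| ≤ |E|`
    obtain ⟨g, hg⟩ := hM1 ⟨x, hxC⟩ hbβ (D.subgroupOf (Pool.Agent.N20.CC z)) hDp.comap_subtype (by
      intro r hr
      have h1 := Subgroup.mem_centralizer_iff.1 hxD (r : G) (Subgroup.mem_subgroupOf.1 hr)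
      exact Subtype.ext h1)
    rw [← Nat.card_congr (Subgroup.subgroupOfEquivOfLe hDle).toEquiv]
    refine Nat.card_le_card_of_injective
      (fun r : D.subgroupOf (Pool.Agent.N20.CC z) => (⟨g * r * g⁻¹, hg r r.2⟩ : E)) ?_
    intro r s hrs
    have h2 : g * (r : Pool.Agent.N20.CC z) * g⁻¹ = g * (s : Pool.Agent.N20.CC z) * g⁻¹ :=
      congrArg Subtype.val hrs
    exact Subtype.ext (mul_left_cancel (mul_right_cancel h2))

end Pool.Agent.Helper7.KB
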